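import Mathlib

/-!
# MP_9b64ae: the words `S^k(u)` of a Sturmian word `u` need not be rich

Let `u` be the Sturmian word `u_n = ⌊(n+2)√2⌋ - ⌊(n+1)√2⌋` modulo `2`. Then `S^6(u)` has a factor of
length `9` with fewer than `10` distinct palindromic factors.
-/

set_option autoImplicit false

namespace Pool.Agent.Results.MP_9b64ae_co.SturmianNotRich

/-- The operation `S` on binary words: sums of consecutive letters modulo `2`. -/
def S (u : ℕ → ZMod 2) : ℕ → ZMod 2 := fun n => u n + u (n + 1)

/-- The factor of length `n` of `u` that starts at position `i`. -/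
def factor (u : ℕ → ZMod 2) (i n : ℕ) : List (ZMod 2) := (List.range n).map fun j => u (i + j)

/-- A Sturmian word: a binary infinite word with exactly `n + 1` distinct factors of length `n`, for
every `n ≥ 0`. -/
def IsSturmian (u : ℕ → ZMod 2) : Prop := ∀ n : ℕ, {w | ∃ i : ℕ, w = factor u i n}.ncard = n + 1

/-- A finite word is rich if it has `|w| + 1` distinct palindromic factors (with the empty word). -/
def IsRich (w : List (ZMod 2)) : Prop :=
  {p : List (ZMod 2) | p <:+: w ∧ p.reverse = p}.ncard = w.length + 1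

/-- An infinite word is rich if every one of its finite factors is rich. -/
def IsRichWord (u : ℕ → ZMod 2) : Prop := ∀ i n : ℕ, IsRich (factor u i n)

/-! ### Richness of finite words, computed -/

/-- The palindromic factors of a finite word, computed. -/
def pals (w : List (ZMod 2)) : Finset (List (ZMod 2)) :=
  ((w.tails.flatMap List.inits).filter fun p => p.reverse = p).toFinset

theorem pals_coe (w : List (ZMod 2)) :
    {p : List (ZMod 2) | p <:+: w ∧ p.reverse = p} = (pals w : Set _) := by
  ext p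
  simp only [pals, Set.mem_ofPred_eq, List.coe_toFinset, List.mem_filter, List.mem_flatMap,
    List.mem_tails, List.mem_inits, decide_eq_true_eq, List.infix_iff_prefix_suffix]
  constructor
  · rintro ⟨⟨s, h1, h2⟩, h3⟩; exact ⟨⟨s, h2, h1⟩, h3⟩
  · rintro ⟨⟨s, h1, h2⟩, h3⟩; exact ⟨⟨s, h2, h1⟩, h3⟩

/-- Sums of consecutive letters of a finite word. -/
def sList : List (ZMod 2) → List (ZMod 2)
  | a :: b :: l => (a + b) :: sList (b :: l)
  | _ => []

theorem factor_succ (u : ℕ → ZMod 2) (i n : ℕ) :
    factor u i (n + 1) = u i :: factor u (i + 1) n := by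
  unfold factor
  rw [List.range_succ_eq_map, List.map_cons, List.map_map]
  simp only [Nat.add_zero, List.cons.injEq, true_and]
  apply List.map_congr_left
  intro j _
  simp only [Function.comp_apply, Nat.succ_eq_add_one]
  congr 1; omega

theorem factor_S (u : ℕ → ZMod 2) (i n : ℕ) : factor (S u) i n = sList (factor u i (n + 1)) := by
  induction n generalizing i with
  | zero => simp [factor, sList]
  | succ n ih =>
    rw [factor_succ (S u) i n, factor_succ u i (n + 1), factor_succ u (i + 1) n, sList,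
      ← factor_succ u (i + 1) n, ← ih]
    rfl

theorem factor_iter (u : ℕ → ZMod 2) (k i n : ℕ) :
    factor (S^[k] u) i n = sList^[k] (factor u i (n + k)) := by
  induction k generalizing u n with
  | zero => rfl
  | succ k ih =>
    rw [Function.iterate_succ_apply, Function.iterate_succ_apply, ih, factor_S]
    congr 2

/-! ### The Sturmian word -/

/-- The floor of `n √2`. -/
noncomputable def fl (n : ℕ) : ℤ := ⌊(n : ℝ) * √2⌋

/-- The word `⌊(n+2)√2⌋ - ⌊(n+1)√2⌋` modulo `2`. -/
noncomputable def u (n : ℕ) : ZMod 2 := ((fl (n + 2) - fl (n + 1) : ℤ) : ZMod 2)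

theorem fl_eq (n k : ℕ) (h1 : k ^ 2 ≤ 2 * n ^ 2) (h2 : 2 * n ^ 2 < (k + 1) ^ 2) : fl n = k := by
  unfold fl
  rw [Int.floor_eq_iff]
  have h3 : (√2 : ℝ) ^ 2 = 2 := Real.sq_sqrt (by norm_num)
  have h4 : (0 : ℝ) ≤ √2 := Real.sqrt_nonneg 2
  have h5 : ((k : ℝ)) ^ 2 ≤ 2 * (n : ℝ) ^ 2 := by exact_mod_cast h1
  have h6 : 2 * (n : ℝ) ^ 2 < ((k : ℝ) + 1) ^ 2 := by exact_mod_cast h2
  have h7 : ((n : ℝ) * √2) ^ 2 = 2 * (n : ℝ) ^ 2 := by rw [mul_pow, h3]; ring
  constructor
  · push_cast
    apply le_of_sq_le_sq _ (by positivity)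
    rw [h7]; exact h5
  · push_cast
    apply lt_of_pow_lt_pow_left₀ 2 (by positivity)
    rw [h7]; exact h6

theorem fl_add (m j : ℕ) :
    fl (m + j) = fl m + ⌊Int.fract ((m : ℝ) * √2) + (j : ℝ) * √2⌋ := by
  unfold fl
  have : ((m + j : ℕ) : ℝ) * √2 = Int.fract ((m : ℝ) * √2) + (j : ℝ) * √2 + (⌊(m : ℝ) * √2⌋ : ℝ) := by
    have := Int.fract_add_floor ((m : ℝ) * √2)
    push_cast
    linarith
  rw [this, Int.floor_add_intCast]
  ring

/-- The steps of `fl` are `1` or `2`. -/
theorem fl_step (n : ℕ) : fl (n + 1) - fl n = 1 ∨ fl (n + 1) - fl n = 2 := by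
  have h3 : (√2 : ℝ) ^ 2 = 2 := Real.sq_sqrt (by norm_num)
  have h4 : (0 : ℝ) ≤ √2 := Real.sqrt_nonneg 2
  have h5 : 1 < √2 := by nlinarith
  have h6 : √2 < 2 := by nlinarith
  have h7 := Int.fract_nonneg ((n : ℝ) * √2)
  have h8 := Int.fract_lt_one ((n : ℝ) * √2)
  have h9 := fl_add n 1
  have h10 : (1 : ℤ) ≤ ⌊Int.fract ((n : ℝ) * √2) + ((1 : ℕ) : ℝ) * √2⌋ := by
    rw [Int.le_floor]; push_cast; linarith
  have h11 : ⌊Int.fract ((n : ℝ) * √2) + ((1 : ℕ) : ℝ) * √2⌋ < 3 := by
    rw [Int.floor_lt]; push_cast; linarith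
  omega

theorem u_eq_iff (m n : ℕ) : u m = u n ↔ fl (m + 2) - fl (m + 1) = fl (n + 2) - fl (n + 1) := by
  unfold u
  rw [ZMod.intCast_eq_intCast_iff_dvd_sub]
  have h1 := fl_step (m + 1)
  have h2 := fl_step (n + 1)
  rw [show m + 1 + 1 = m + 2 by omega] at h1
  rw [show n + 1 + 1 = n + 2 by omega] at h2
  constructor
  · intro h; push_cast at h; omega
  · intro h; rw [h]; simp

/-- `A i j = ⌊x + j√2⌋` where `x` is the fractional part of `(i+1)√2`. -/
noncomputable def A (i j : ℕ) : ℤ := fl (i + 1 + j) - fl (i + 1)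

theorem factor_eq_iff (i i' n : ℕ) :
    factor u i n = factor u i' n ↔ ∀ j ≤ n, A i j = A i' j := by
  have h0 : factor u i n = factor u i' n ↔ ∀ j < n, u (i + j) = u (i' + j) := by
    unfold factor
    rw [List.map_inj_left]
    simp
  rw [h0]
  constructor
  · intro h j
    induction j with
    | zero => intro _; simp [A]
    | succ j ih =>
      intro hj
      have h1 := ih (by omega)
      have h2 := (u_eq_iff _ _).1 (h j (by omega))
      unfold A at h1 ⊢
      rw [show i + j + 2 = i + 1 + (j + 1) by omega, show i + j + 1 = i + 1 + j by omega,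
        show i' + j + 2 = i' + 1 + (j + 1) by omega, show i' + j + 1 = i' + 1 + j by omega] at h2
      omega
  · intro h j hj
    rw [u_eq_iff]
    have h1 := h j (by omega)
    have h2 := h (j + 1) (by omega)
    unfold A at h1 h2
    rw [show i + j + 2 = i + 1 + (j + 1) by omega, show i + j + 1 = i + 1 + j by omega,
      show i' + j + 2 = i' + 1 + (j + 1) by omega, show i' + j + 1 = i' + 1 + j by omega]
    omega

theorem A_eq (i j : ℕ) : A i j = ⌊Int.fract (((i + 1 : ℕ) : ℝ) * √2) + (j : ℝ) * √2⌋ := by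
  unfold A
  rw [fl_add]; ring

theorem A_mono {i i' : ℕ} (h : Int.fract (((i + 1 : ℕ) : ℝ) * √2) ≤ Int.fract (((i' + 1 : ℕ) : ℝ) * √2))
    (j : ℕ) : A i j ≤ A i' j := by
  rw [A_eq, A_eq]
  exact Int.floor_le_floor (by linarith)

theorem A_bounds (i j : ℕ) : fl j ≤ A i j ∧ A i j ≤ fl j + 1 := by
  rw [A_eq]
  have h7 := Int.fract_nonneg (((i + 1 : ℕ) : ℝ) * √2)
  have h8 := Int.fract_lt_one (((i + 1 : ℕ) : ℝ) * √2)
  constructor
  · exact Int.floor_le_floor (by linarith)
  · have : ⌊Int.fract (((i + 1 : ℕ) : ℝ) * √2) + (j : ℝ) * √2⌋ ≤ ⌊(j : ℝ) * √2 + 1⌋ :=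
      Int.floor_le_floor (by linarith)
    rw [Int.floor_add_one] at this
    exact this

/-- The set of factors of length `n`. -/
def facs (n : ℕ) : Set (List (ZMod 2)) := {w | ∃ i : ℕ, w = factor u i n}

theorem facs_finite (n : ℕ) : (facs n).Finite := by
  refine (List.finite_length_eq (ZMod 2) n).subset ?_
  rintro w ⟨i, rfl⟩
  simp [factor]

theorem facs_le (n : ℕ) : (facs n).ncard ≤ n + 1 := by
  -- the sum of the numbers `A i j` determines the factor
  have key : ∀ i i' : ℕ, ∑ j ∈ Finset.range n, A i (j + 1) = ∑ j ∈ Finset.range n, A i' (j + 1) →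
      factor u i n = factor u i' n := by
    intro i i' h
    rw [factor_eq_iff]
    wlog hle : Int.fract (((i + 1 : ℕ) : ℝ) * √2) ≤ Int.fract (((i' + 1 : ℕ) : ℝ) * √2) generalizing i i'
    · intro j hj
      exact (this i' i h.symm (le_of_not_ge hle) j hj).symm
    have h1 := (Finset.sum_eq_sum_iff_of_le (s := Finset.range n) (f := fun j => A i (j + 1))
      (g := fun j => A i' (j + 1)) (fun j _ => A_mono hle (j + 1))).1 h
    intro j hj
    rcases Nat.eq_zero_or_pos j with rfl | h2
    · simp [A]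
    · have := h1 (j - 1) (Finset.mem_range.2 (by omega))
      rwa [show j - 1 + 1 = j by omega] at this
  set B : ℤ := ∑ j ∈ Finset.range n, fl (j + 1) with hB
  have hbd : ∀ i, ∑ j ∈ Finset.range n, A i (j + 1) ∈ Finset.Icc B (B + n) := by
    intro i
    rw [Finset.mem_Icc]
    constructor
    · exact Finset.sum_le_sum fun j _ => (A_bounds i (j + 1)).1
    · calc ∑ j ∈ Finset.range n, A i (j + 1) ≤ ∑ j ∈ Finset.range n, (fl (j + 1) + 1) :=
            Finset.sum_le_sum fun j _ => (A_bounds i (j + 1)).2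
        _ = B + n := by rw [Finset.sum_add_distrib]; simp [hB]
  classical
  choose g hg using fun w : facs n => w.2
  have : (facs n).ncard = ((facs_finite n).toFinset).card := Set.ncard_eq_toFinset_card _ _
  rw [this]
  have hcard : (Finset.Icc B (B + n)).card = n + 1 := by
    rw [Int.card_Icc]; omega
  rw [← hcard]
  apply Finset.card_le_card_of_injOn
    (fun w => if h : w ∈ facs n then ∑ j ∈ Finset.range n, A (g ⟨w, h⟩) (j + 1) else B)
  · intro w hw
    have hw' : w ∈ facs n := by simpa using hw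
    simp only [hw', dif_pos]
    exact_mod_cast hbd _
  · intro w hw w' hw' h
    have h1 : w ∈ facs n := by simpa using hw
    have h2 : w' ∈ facs n := by simpa using hw'
    simp only [h1, h2, dif_pos] at h
    have := key _ _ h
    rw [← hg ⟨w, h1⟩, ← hg ⟨w', h2⟩] at this
    exact this

theorem factor_take (i n : ℕ) : (factor u i (n + 1)).take n = factor u i n := by
  unfold factor
  rw [← List.map_take, List.take_range]
  simp

theorem irr_contra (i p : ℕ) (hp : 0 < p) (h : ∀ t, u (i + t) = u (i + p + t)) : False := by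
  -- `fl` is then almost additive along multiples of `p`
  have hA : ∀ t, A i t = A (i + p) t := by
    intro t
    exact (factor_eq_iff i (i + p) t).1 (by
      unfold factor
      rw [List.map_inj_left]
      intro j _
      exact h j) t le_rfl
  have hk : ∀ k : ℕ, fl (i + 1 + k * p) = fl (i + 1) + k * A i p := by
    intro k
    induction k with
    | zero => simp
    | succ k ih =>
      have h1 := hA (k * p)
      unfold A at h1
      rw [show i + p + 1 + k * p = i + 1 + (k + 1) * p by ring] at h1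
      have h2 : A i p = fl (i + 1 + p) - fl (i + 1) := rfl
      rw [show i + p + 1 = i + 1 + p by ring] at h1
      push_cast
      rw [h2] at ih ⊢
      linarith
  -- hence `p √2` is an integer
  have hbound : ∀ k : ℕ, |(k : ℝ) * ((p : ℝ) * √2 - (A i p : ℝ))| ≤ 1 := by
    intro k
    have h1 := fl_add (i + 1) (k * p)
    rw [hk k] at h1
    have h2 : (k : ℤ) * A i p = ⌊Int.fract (((i + 1 : ℕ) : ℝ) * √2) + ((k * p : ℕ) : ℝ) * √2⌋ := by
      linarith
    have h3 := Int.floor_le (Int.fract (((i + 1 : ℕ) : ℝ) * √2) + ((k * p : ℕ) : ℝ) * √2)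
    have h4 := Int.lt_floor_add_one (Int.fract (((i + 1 : ℕ) : ℝ) * √2) + ((k * p : ℕ) : ℝ) * √2)
    rw [← h2] at h3 h4
    push_cast at h3 h4
    have h7 := Int.fract_nonneg (((i + 1 : ℕ) : ℝ) * √2)
    have h8 := Int.fract_lt_one (((i + 1 : ℕ) : ℝ) * √2)
    push_cast at h7 h8
    rw [abs_le]
    constructor <;> nlinarith
  have hzero : (p : ℝ) * √2 - (A i p : ℝ) = 0 := by
    by_contra hne
    obtain ⟨k, hk⟩ := exists_nat_gt (1 / |(p : ℝ) * √2 - (A i p : ℝ)|)
    have h1 := hbound k
    rw [abs_mul, Nat.abs_cast] at h1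
    have h2 : 0 < |(p : ℝ) * √2 - (A i p : ℝ)| := abs_pos.2 hne
    rw [div_lt_iff₀ h2] at hk
    linarith
  have hirr := irrational_sqrt_two
  apply hirr
  refine ⟨(A i p : ℚ) / (p : ℚ), ?_⟩
  have hp' : (p : ℝ) ≠ 0 := by exact_mod_cast hp.ne'
  push_cast
  rw [div_eq_iff hp']
  linarith

theorem facs_lt (n : ℕ) : (facs n).ncard < (facs (n + 1)).ncard := by
  by_contra hcon
  push Not at hcon
  have himg : (fun w : List (ZMod 2) => w.take n) '' facs (n + 1) = facs n := by
    ext w
    constructor
    · rintro ⟨_, ⟨i, rfl⟩, rfl⟩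
      exact ⟨i, factor_take i n⟩
    · rintro ⟨i, rfl⟩
      exact ⟨factor u i (n + 1), ⟨i, rfl⟩, factor_take i n⟩
  have hinj : Set.InjOn (fun w : List (ZMod 2) => w.take n) (facs (n + 1)) := by
    apply (Set.ncard_image_iff (facs_finite (n + 1))).1
    rw [himg]
    apply le_antisymm _ hcon
    rw [← himg]
    exact Set.ncard_image_le (facs_finite (n + 1))
  have hext : ∀ i j : ℕ, factor u i n = factor u j n → u (i + n) = u (j + n) ∧
      factor u (i + 1) n = factor u (j + 1) n := by
    intro i j h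
    have h1 : factor u i (n + 1) = factor u j (n + 1) :=
      hinj (show factor u i (n + 1) ∈ facs (n + 1) from ⟨i, rfl⟩)
        (show factor u j (n + 1) ∈ facs (n + 1) from ⟨j, rfl⟩) (by simp only [factor_take]; exact h)
    constructor
    · have : ∀ k < n + 1, u (i + k) = u (j + k) := by
        unfold factor at h1
        rw [List.map_inj_left] at h1
        simpa using h1
      exact this n (by omega)
    · rw [factor_succ, factor_succ] at h1
      exact (List.cons.inj h1).2
  -- two equal factors of length `n`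
  obtain ⟨i, j, hij, h⟩ : ∃ i j : ℕ, i < j ∧ factor u i n = factor u j n := by
    by_contra hno
    push Not at hno
    have : Function.Injective fun i : ℕ => factor u i n := by
      intro i j hij
      rcases lt_trichotomy i j with h | h | h
      · exact absurd hij (hno i j h)
      · exact h
      · exact absurd hij.symm (hno j i h)
    have hm : ∀ i : ℕ, factor u i n ∈ facs n := fun i => ⟨i, rfl⟩
    exact Set.infinite_of_injective_forall_mem this hm (facs_finite n)
  have hall : ∀ t, factor u (i + t) n = factor u (j + t) n := by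
    intro t
    induction t with
    | zero => exact h
    | succ t ih => exact (hext _ _ ih).2
  refine irr_contra (i + n) (j - i) (by omega) fun t => ?_
  have := (hext _ _ (hall t)).1
  rw [show i + n + t = i + t + n by omega, show i + n + (j - i) + t = j + t + n by omega]
  exact this

/-- The word `u` is Sturmian. -/
theorem sturmian : IsSturmian u := by
  intro n
  change (facs n).ncard = n + 1
  apply le_antisymm (facs_le n)
  induction n with
  | zero =>
    have h1 : (facs 0).Nonempty := ⟨_, 0, rfl⟩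
    have := (Set.ncard_pos (facs_finite 0)).2 h1
    omega
  | succ n ih =>
    have := facs_lt n
    omega

theorem factor_u : factor u 3 15 = [0, 1, 1, 0, 1, 0, 1, 1, 0, 1, 0, 1, 0, 1, 1] := by
  have f4 : fl 4 = (5 : ℕ) := fl_eq 4 5 (by norm_num) (by norm_num)
  have f5 : fl 5 = (7 : ℕ) := fl_eq 5 7 (by norm_num) (by norm_num)
  have f6 : fl 6 = (8 : ℕ) := fl_eq 6 8 (by norm_num) (by norm_num)
  have f7 : fl 7 = (9 : ℕ) := fl_eq 7 9 (by norm_num) (by norm_num)
  have f8 : fl 8 = (11 : ℕ) := fl_eq 8 11 (by norm_num) (by norm_num)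
  have f9 : fl 9 = (12 : ℕ) := fl_eq 9 12 (by norm_num) (by norm_num)
  have f10 : fl 10 = (14 : ℕ) := fl_eq 10 14 (by norm_num) (by norm_num)
  have f11 : fl 11 = (15 : ℕ) := fl_eq 11 15 (by norm_num) (by norm_num)
  have f12 : fl 12 = (16 : ℕ) := fl_eq 12 16 (by norm_num) (by norm_num)
  have f13 : fl 13 = (18 : ℕ) := fl_eq 13 18 (by norm_num) (by norm_num)
  have f14 : fl 14 = (19 : ℕ) := fl_eq 14 19 (by norm_num) (by norm_num)
  have f15 : fl 15 = (21 : ℕ) := fl_eq 15 21 (by norm_num) (by norm_num)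
  have f16 : fl 16 = (22 : ℕ) := fl_eq 16 22 (by norm_num) (by norm_num)
  have f17 : fl 17 = (24 : ℕ) := fl_eq 17 24 (by norm_num) (by norm_num)
  have f18 : fl 18 = (25 : ℕ) := fl_eq 18 25 (by norm_num) (by norm_num)
  have f19 : fl 19 = (26 : ℕ) := fl_eq 19 26 (by norm_num) (by norm_num)
  have u3 : u 3 = 0 := by
    unfold u; rw [f5, f4]; decide
  have u4 : u 4 = 1 := by
    unfold u; rw [f6, f5]; decide
  have u5 : u 5 = 1 := by
    unfold u; rw [f7, f6]; decide
  have u6 : u 6 = 0 := by
    unfold u; rw [f8, f7]; decide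
  have u7 : u 7 = 1 := by
    unfold u; rw [f9, f8]; decide
  have u8 : u 8 = 0 := by
    unfold u; rw [f10, f9]; decide
  have u9 : u 9 = 1 := by
    unfold u; rw [f11, f10]; decide
  have u10 : u 10 = 1 := by
    unfold u; rw [f12, f11]; decide
  have u11 : u 11 = 0 := by
    unfold u; rw [f13, f12]; decide
  have u12 : u 12 = 1 := by
    unfold u; rw [f14, f13]; decide
  have u13 : u 13 = 0 := by
    unfold u; rw [f15, f14]; decide
  have u14 : u 14 = 1 := by
    unfold u; rw [f16, f15]; decide
  have u15 : u 15 = 0 := by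
    unfold u; rw [f17, f16]; decide
  have u16 : u 16 = 1 := by
    unfold u; rw [f18, f17]; decide
  have u17 : u 17 = 1 := by
    unfold u; rw [f19, f18]; decide
  unfold factor
  rw [show List.range 15 = [0, 1, 2, 3, 4, 5, 6, 7, 8, 9, 10, 11, 12, 13, 14] from rfl]
  simp only [List.map_cons, List.map_nil, Nat.reduceAdd, Nat.add_zero, u3, u4, u5, u6, u7, u8, u9, u10, u11, u12, u13, u14, u15, u16, u17]

/-- The answer to Q1 is negative: it is not true that `S^k(u)` is rich for every Sturmian word `u`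
and every `k ≥ 1`. -/
theorem result : ¬ ∀ u : ℕ → ZMod 2, IsSturmian u → ∀ k : ℕ, 1 ≤ k → IsRichWord (S^[k] u) := by
  intro h
  have h1 := h u sturmian 6 (by norm_num) 3 9
  unfold IsRich at h1
  rw [pals_coe, Set.ncard_coe_finset, factor_iter, factor_u] at h1
  revert h1
  decide +kernel

end Pool.Agent.Results.MP_9b64ae_co.SturmianNotRich
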